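import Mathlib

/-!
# Compatible algebras with straightening laws on the ideals of a disjoint union of chains

Let `P` be a finite disjoint union of chains. Every compatible algebra with straightening laws
`K[Ω]` on the lattice of the poset ideals of `P` has the straightening relations
`φ(I) φ(I') = φ(I ∩ I') φ(I ∪ I')` of the toric ring of the order polytope of `P`.
-/

set_option autoImplicit false

open MvPolynomial

namespace Pool.Agent.Results.MP_9c3df6_al.UnionOfChains

/-! ### Algebras with straightening laws -/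

/-- `s` is a multiset of pairwise comparable elements; the standard monomials are the products
over such multisets. -/
def IsStd {L : Type*} [PartialOrder L] (s : Multiset L) : Prop :=
  ∀ a ∈ s, ∀ b ∈ s, a ≤ b ∨ b ≤ a

/-- The product of the images of the elements of a multiset. -/
def mon {L R : Type*} [CommRing R] (φ : L → R) (s : Multiset L) : R := (s.map φ).prod

/-- `R` is an algebra with straightening laws on the finite poset `L` via `φ`: `φ` is injective,
(i) the standard monomials form a `K`-basis of `R`, (ii) in the expansion of `φ α φ β`, for `α`, `β`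
incomparable, the smallest factor of every standard monomial with nonzero coefficient is
`≤ α` and `≤ β`. -/
structure IsASL (K : Type*) [Field K] {R : Type*} [CommRing R] [Algebra K R] {L : Type*}
    [PartialOrder L] (φ : L → R) : Prop where
  injective : Function.Injective φ
  linearIndependent : LinearIndependent K (fun s : {s : Multiset L // IsStd s} => mon φ s.1)
  span : Submodule.span K (Set.range fun s : {s : Multiset L // IsStd s} => mon φ s.1) = ⊤
  straightening : ∀ α β : L, ¬ α ≤ β → ¬ β ≤ α → ∀ c : {s : Multiset L // IsStd s} →₀ K,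
    φ α * φ β = c.sum (fun s r => r • mon φ s.1) →
      ∀ s ∈ c.support, ∃ γ ∈ s.1, (∀ δ ∈ s.1, γ ≤ δ) ∧ γ ≤ α ∧ γ ≤ β

/-! ### The rings `K[Ω]` -/

/-- The monomial `w_I t` of the polynomial ring `K[x_i, t]`; the variable `t` is `X none` and the
variable `x_i` is `X (some i)`. -/
noncomputable def gen (K : Type*) [Field K] {σ L : Type*} (w : L → σ →₀ ℕ) (I : L) :
    MvPolynomial (Option σ) K :=
  rename some (monomial (w I) (1 : K)) * X none

/-- The subalgebra `K[Ω]` generated by the monomials `w_I t`. -/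
noncomputable def KOmega (K : Type*) [Field K] {σ L : Type*} (w : L → σ →₀ ℕ) :
    Subalgebra K (MvPolynomial (Option σ) K) :=
  Algebra.adjoin K (Set.range (gen K w))

/-- The map `φ : I ↦ w_I t` into `K[Ω]`. -/
noncomputable def phi (K : Type*) [Field K] {σ L : Type*} (w : L → σ →₀ ℕ) (I : L) :
    KOmega K w :=
  ⟨gen K w I, Algebra.subset_adjoin ⟨I, rfl⟩⟩

/-- `K[Ω]` is a compatible algebra with straightening laws on the lattice of the ideals of `P`:
every straightening relation has the form `φ(I) φ(I') = φ(J) φ(J')` with `J ⊆ I ∩ I'` and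
`I ∪ I' ⊆ J'`. -/
def IsCompatible (K : Type*) [Field K] {σ P : Type*} [PartialOrder P]
    (w : LowerSet P → σ →₀ ℕ) : Prop :=
  IsASL K (phi K w) ∧ ∀ I I' : LowerSet P, ¬ I ≤ I' → ¬ I' ≤ I →
    ∃ J J' : LowerSet P, J ≤ I ⊓ I' ∧ I ⊔ I' ≤ J' ∧
      phi K w I * phi K w I' = phi K w J * phi K w J'

/-- The straightening relations of `K[Ω]` and `K[Ω']` coincide. -/
def SameRelations (K : Type*) [Field K] {σ τ P : Type*} [PartialOrder P]
    (w : LowerSet P → σ →₀ ℕ) (w' : LowerSet P → τ →₀ ℕ) : Prop :=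
  ∀ I I' : LowerSet P, ¬ I ≤ I' → ¬ I' ≤ I → ∀ J J' : LowerSet P, J ≤ I ⊓ I' → I ⊔ I' ≤ J' →
    (phi K w I * phi K w I' = phi K w J * phi K w J' ↔
      phi K w' I * phi K w' I' = phi K w' J * phi K w' J')

open Classical in
/-- The exponents of the monomial `x(W)`, the product of the variables in `W`. -/
noncomputable def expo {P : Type*} [Fintype P] (W : Set P) : P →₀ ℕ :=
  Finsupp.equivFunOnFinite.symm fun p => if p ∈ W then 1 else 0

/-- The monomials of the toric ring of the order polytope: `w_I = x(I)`. -/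
noncomputable def wOrder {P : Type*} [Fintype P] [PartialOrder P] (I : LowerSet P) : P →₀ ℕ :=
  expo (I : Set P)

/-- `P` is a disjoint union of chains: comparability is transitive. -/
def IsUnionOfChains (P : Type*) [PartialOrder P] : Prop :=
  ∀ a b c : P, (a ≤ b ∨ b ≤ a) → (b ≤ c ∨ c ≤ b) → (a ≤ c ∨ c ≤ a)

/-! ### The combinatorial argument -/

/-- An injective inflationary map on a finite poset is the identity. -/
lemma eq_of_inflationary {α : Type*} [PartialOrder α] [Finite α] (g : α → α)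
    (hg : Function.Injective g) (h : ∀ x, x ≤ g x) (x : α) : g x = x := by
  induction x using WellFoundedGT.induction with
  | ind x ih =>
    by_contra hne
    have hlt : x < g x := lt_of_le_of_ne (h x) (Ne.symm hne)
    exact hne (hg (ih (g x) hlt))

section Comb

variable {L M : Type*} [DistribLattice L] [BoundedOrder L] [Finite L] [AddCommMonoid M]
  [IsCancelAdd M]

/-- The properties of the exponent vectors of a compatible algebra that we use. -/
structure Good (f : L → M) : Prop where
  inj : Function.Injective f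
  two : ∀ a b c d : L, a ≤ b → c ≤ d → f a + f b = f c + f d → a = c ∧ b = d
  rel : ∀ a b : L, ¬ a ≤ b → ¬ b ≤ a → ∃ c d, c ≤ a ⊓ b ∧ a ⊔ b ≤ d ∧ f a + f b = f c + f d

variable {f : L → M} {s s' : L} (hs : IsCompl s s')

include hs in
omit [Finite L] in
lemma incomp {X Y : L} (hX : X ≤ s) (hY : Y ≤ s') (hX0 : X ≠ ⊥) : ¬ X ≤ Y := by
  intro h
  apply hX0
  rw [eq_bot_iff, ← hs.inf_eq_bot]
  exact le_inf hX (h.trans hY)

variable (hf : Good f)

include hf hs

lemma claim_one {X : L} (hX : X ≤ s) : f X + f s' = f ⊥ + f (X ⊔ s') := by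
  classical
  by_cases hs0 : s' = ⊥
  · subst hs0
    rw [add_comm, sup_bot_eq]
  have key : ∀ X : Set.Iic s, ∃ Y : Set.Iic s, X ≤ Y ∧
      f (X : L) + f s' = f ⊥ + f ((Y : L) ⊔ s') := by
    rintro ⟨X, hX⟩
    by_cases hX0 : X = ⊥
    · refine ⟨⟨X, hX⟩, le_rfl, ?_⟩
      subst hX0
      change f ⊥ + f s' = f ⊥ + f (⊥ ⊔ s')
      rw [bot_sup_eq]
    · obtain ⟨c, d, hc, hd, he⟩ := hf.rel X s' (incomp hs hX le_rfl hX0)
        (incomp hs.symm le_rfl hX hs0)
      have hc0 : c = ⊥ := by
        rw [eq_bot_iff, ← hs.inf_eq_bot]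
        exact hc.trans (inf_le_inf_right _ hX)
      refine ⟨⟨d ⊓ s, inf_le_right⟩, le_inf (le_sup_left.trans hd) hX, ?_⟩
      have hd2 : d ⊓ s ⊔ s' = d := by
        rw [sup_inf_right, hs.sup_eq_top, inf_top_eq]
        exact sup_eq_left.2 (le_sup_right.trans hd)
      change f X + f s' = f ⊥ + f (d ⊓ s ⊔ s')
      rw [hd2, he, hc0]
  choose g hg1 hg2 using key
  have hinj : Function.Injective g := by
    intro X Y h
    have h1 := hg2 X
    have h2 := hg2 Y
    rw [← h, ← h1] at h2
    exact Subtype.ext (hf.inj (add_right_cancel h2)).symm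
  have := hg2 ⟨X, hX⟩
  rw [eq_of_inflationary g hinj hg1] at this
  exact this

lemma half {X Y J : L} (hX : X ≤ s) (hY : Y ≤ s') (hX0 : X ≠ ⊥)
    (hJ : X ⊔ Y ≤ J) (he : f X + f Y = f ⊥ + f J) : J ⊓ s ≤ X := by
  have h1 := claim_one hs hf hX
  have h2 : f Y + f (X ⊔ s') = f s' + f J := by
    have : f ⊥ + (f Y + f (X ⊔ s')) = f ⊥ + (f s' + f J) := by
      calc f ⊥ + (f Y + f (X ⊔ s')) = (f ⊥ + f (X ⊔ s')) + f Y := by abel
        _ = (f X + f Y) + f s' := by rw [← h1]; abel
        _ = f ⊥ + (f s' + f J) := by rw [he]; abel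
    exact add_left_cancel this
  have hYle : Y ≤ X ⊔ s' := hY.trans le_sup_right
  have key : ∀ B : L, J ⊔ s' ≤ B → B = X ⊔ s' → J ⊓ s ≤ X := by
    intro B hB hB2
    have h3 : J ⊓ s ≤ (X ⊔ s') ⊓ s := inf_le_inf_right _ ((le_sup_left.trans hB).trans hB2.le)
    rwa [inf_sup_right, hs.symm.inf_eq_bot, sup_bot_eq, inf_eq_left.2 hX] at h3
  by_cases hc : s' ≤ J
  · obtain ⟨-, h4⟩ := hf.two _ _ _ _ hYle hc h2
    exact key J (sup_le le_rfl hc) h4.symm
  · have hc2 : ¬ J ≤ s' := fun h => incomp hs hX (le_refl s') hX0 ((le_sup_left.trans hJ).trans h)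
    obtain ⟨a, b, ha, hb, hab⟩ := hf.rel s' J hc hc2
    have hle : a ≤ b := (ha.trans inf_le_left).trans (le_sup_left.trans hb)
    obtain ⟨-, h4⟩ := hf.two _ _ _ _ hYle hle (h2.trans hab)
    exact key b (by rw [sup_comm]; exact hb) h4.symm

lemma claim_two {X Y : L} (hX : X ≤ s) (hY : Y ≤ s') : f X + f Y = f ⊥ + f (X ⊔ Y) := by
  by_cases hX0 : X = ⊥
  · subst hX0
    rw [bot_sup_eq]
  by_cases hY0 : Y = ⊥
  · subst hY0
    rw [sup_bot_eq, add_comm]
  obtain ⟨c, J, hc, hJ, he⟩ := hf.rel X Y (incomp hs hX hY hX0)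
    (incomp hs.symm hY hX hY0)
  have hc0 : c = ⊥ := by
    rw [eq_bot_iff, ← hs.inf_eq_bot]
    exact hc.trans (inf_le_inf hX hY)
  subst hc0
  have h1 := half hs hf hX hY hX0 hJ he
  have h2 : J ⊓ s' ≤ Y := half hs.symm hf (J := J) hY hX hY0 (by rw [sup_comm]; exact hJ)
    (by rw [add_comm]; exact he)
  have h3 : J = X ⊔ Y := by
    refine le_antisymm ?_ hJ
    calc J = J ⊓ (s ⊔ s') := by rw [hs.sup_eq_top, inf_top_eq]
      _ = J ⊓ s ⊔ J ⊓ s' := inf_sup_left _ _ _
      _ ≤ X ⊔ Y := sup_le_sup h1 h2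
  rw [he, h3]

lemma claim_three {I I' : L} (h : I ⊓ s ≤ I') (h' : I' ⊓ s' ≤ I) :
    f I + f I' = f (I ⊓ I') + f (I ⊔ I') := by
  have hdec : ∀ Z : L, Z = (Z ⊓ s) ⊔ (Z ⊓ s') := fun Z => by
    rw [← inf_sup_left, hs.sup_eq_top, inf_top_eq]
  have e1 : I ⊓ I' = (I ⊓ s) ⊔ (I' ⊓ s') := by
    apply le_antisymm
    · rw [hdec (I ⊓ I')]
      exact sup_le_sup (inf_le_inf_right _ inf_le_left) (inf_le_inf_right _ inf_le_right)
    · exact sup_le (le_inf inf_le_left h) (le_inf h' inf_le_left)
  have e2 : I ⊔ I' = (I' ⊓ s) ⊔ (I ⊓ s') := by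
    apply le_antisymm
    · refine sup_le ?_ ?_
      · conv_lhs => rw [hdec I]
        exact sup_le_sup (le_inf h inf_le_right) le_rfl
      · conv_lhs => rw [hdec I']
        exact sup_le_sup le_rfl (le_inf h' inf_le_right)
    · exact sup_le (inf_le_left.trans le_sup_right) (inf_le_left.trans le_sup_left)
  have c1 := claim_two hs hf (X := I ⊓ s) (Y := I ⊓ s') inf_le_right inf_le_right
  have c2 := claim_two hs hf (X := I' ⊓ s) (Y := I' ⊓ s') inf_le_right inf_le_right
  have c3 := claim_two hs hf (X := I ⊓ s) (Y := I' ⊓ s') inf_le_right inf_le_right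
  have c4 := claim_two hs hf (X := I' ⊓ s) (Y := I ⊓ s') inf_le_right inf_le_right
  rw [← hdec] at c1 c2
  rw [← e1] at c3
  rw [← e2] at c4
  have : (f ⊥ + f ⊥) + (f I + f I') = (f ⊥ + f ⊥) + (f (I ⊓ I') + f (I ⊔ I')) := by
    calc (f ⊥ + f ⊥) + (f I + f I') = (f ⊥ + f I) + (f ⊥ + f I') := by abel
      _ = (f ⊥ + f (I ⊓ I')) + (f ⊥ + f (I ⊔ I')) := by
        rw [← c1, ← c2, ← c3, ← c4]; abel
      _ = _ := by abel
  exact add_left_cancel this

end Comb

/-- For two ideals of a disjoint union of chains there is a union of components such that the first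
ideal is contained in the second on it, and conversely on the other components. -/
lemma exists_split {P : Type*} [PartialOrder P] (hP : IsUnionOfChains P) (I I' : LowerSet P) :
    ∃ s s' : LowerSet P, IsCompl s s' ∧ I ⊓ s ≤ I' ∧ I' ⊓ s' ≤ I := by
  let S : Set P := {p | ∀ q, (p ≤ q ∨ q ≤ p) → q ∈ I → q ∈ I'}
  have hS : ∀ p r : P, (p ≤ r ∨ r ≤ p) → p ∈ S → r ∈ S := by
    intro p r h hp q hq
    exact hp q (hP p r q h hq)
  refine ⟨⟨S, fun a b hba ha => hS a b (Or.inr hba) ha⟩,
    ⟨Sᶜ, fun a b hba ha hb => ha (hS b a (Or.inl hba) hb)⟩, ?_, ?_, ?_⟩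
  · rw [isCompl_iff, disjoint_iff, codisjoint_iff]
    constructor
    · ext p
      exact ⟨fun h => h.2 h.1, fun h => h.elim⟩
    · ext p
      exact ⟨fun _ => trivial, fun _ => em (p ∈ S)⟩
  · rintro p ⟨hp, hpS⟩
    exact hpS p (Or.inl le_rfl) hp
  · rintro p ⟨hp, hpS⟩
    have hpS' : ¬ ∀ q, (p ≤ q ∨ q ≤ p) → q ∈ I → q ∈ I' := hpS
    push Not at hpS'
    obtain ⟨q, hq, hqI, hqI'⟩ := hpS'
    rcases hq with h | h
    · exact I.lower h hqI
    · exact absurd (I'.lower h hp) hqI'

/-! ### Translation to exponent vectors -/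

section Translate

variable {K : Type*} [Field K] {σ L : Type*}

/-- The exponent vector of `w_I t`. -/
noncomputable def ex (w : L → σ →₀ ℕ) (I : L) : Option σ →₀ ℕ :=
  (w I).mapDomain some + Finsupp.single none 1

lemma gen_eq (w : L → σ →₀ ℕ) (I : L) : gen K w I = monomial (ex w I) 1 := by
  rw [gen, rename_monomial, X, monomial_mul, one_mul, ex]

lemma phi_mul_eq_iff (w : L → σ →₀ ℕ) (I I' J J' : L) :
    phi K w I * phi K w I' = phi K w J * phi K w J' ↔ w I + w I' = w J + w J' := by
  rw [Subtype.ext_iff]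
  change gen K w I * gen K w I' = gen K w J * gen K w J' ↔ _
  rw [gen_eq, gen_eq, gen_eq, gen_eq, monomial_mul, monomial_mul, one_mul]
  rw [(monomial_left_injective (one_ne_zero' K)).eq_iff]
  have h1 : ∀ A B : L, ex w A + ex w B = (w A + w B).mapDomain some + Finsupp.single none 2 := by
    intro A B
    rw [ex, ex, Finsupp.mapDomain_add]
    rw [show (2 : ℕ) = 1 + 1 from rfl, Finsupp.single_add]
    abel
  rw [h1, h1, add_left_inj]
  exact (Finsupp.mapDomain_injective (Option.some_injective σ)).eq_iff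

end Translate

lemma good_of_compatible {K : Type*} [Field K] {σ P : Type*} [PartialOrder P]
    {w : LowerSet P → σ →₀ ℕ} (h : IsCompatible K w) : Good w := by
  obtain ⟨hA, hC⟩ := h
  refine ⟨?_, ?_, ?_⟩
  · intro I J hIJ
    apply hA.injective
    apply Subtype.ext
    change gen K w I = gen K w J
    rw [gen, gen, hIJ]
  · intro a b c d hab hcd he
    have h1 : ∀ x y : LowerSet P, x ≤ y → IsStd ({x, y} : Multiset (LowerSet P)) := by
      intro x y hxy u hu v hv
      simp only [Multiset.insert_eq_cons, Multiset.mem_cons, Multiset.mem_singleton] at hu hv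
      rcases hu with rfl | rfl <;> rcases hv with rfl | rfl
      · exact Or.inl le_rfl
      · exact Or.inl hxy
      · exact Or.inr hxy
      · exact Or.inl le_rfl
    have h2 := (phi_mul_eq_iff (K := K) w a b c d).2 he
    have h3 : (⟨{a, b}, h1 a b hab⟩ : {s : Multiset (LowerSet P) // IsStd s}) =
        ⟨{c, d}, h1 c d hcd⟩ := hA.linearIndependent.injective (by simpa [mon] using h2)
    have h4 : ({a, b} : Multiset (LowerSet P)) = {c, d} := congrArg Subtype.val h3
    have hi := congrArg Multiset.inf h4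
    have hj := congrArg Multiset.sup h4
    simp only [Multiset.insert_eq_cons, Multiset.inf_cons, Multiset.inf_singleton,
      Multiset.sup_cons, Multiset.sup_singleton] at hi hj
    rw [inf_eq_left.2 hab, inf_eq_left.2 hcd] at hi
    rw [sup_eq_right.2 hab, sup_eq_right.2 hcd] at hj
    exact ⟨hi, hj⟩
  · intro a b hab hba
    obtain ⟨J, J', h1, h2, h3⟩ := hC a b hab hba
    exact ⟨J, J', h1, h2, (phi_mul_eq_iff (K := K) w a b J J').1 h3⟩

lemma expo_apply {P : Type*} [Fintype P] (W : Set P) (p : P) [Decidable (p ∈ W)] :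
    expo W p = if p ∈ W then 1 else 0 := by
  classical
  simp only [expo, Finsupp.equivFunOnFinite_symm_apply_apply]
  congr

lemma wOrder_add {P : Type*} [Fintype P] [PartialOrder P] (I I' : LowerSet P) :
    wOrder I + wOrder I' = wOrder (I ⊓ I') + wOrder (I ⊔ I') := by
  classical
  ext p
  simp only [wOrder, Finsupp.add_apply, expo_apply, SetLike.mem_coe, LowerSet.mem_inf_iff,
    LowerSet.mem_sup_iff]
  by_cases h1 : p ∈ I <;> by_cases h2 : p ∈ I' <;> simp [h1, h2]

lemma wOrder_unique {P : Type*} [Fintype P] [PartialOrder P] {I I' J J' : LowerSet P}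
    (h : J ≤ J') (h' : I ≤ I') (he : wOrder I + wOrder I' = wOrder J + wOrder J') :
    I = J ∧ I' = J' := by
  classical
  have key : ∀ p, (p ∈ I ↔ p ∈ J) ∧ (p ∈ I' ↔ p ∈ J') := by
    intro p
    have h1 := DFunLike.congr_fun he p
    simp only [wOrder, Finsupp.add_apply, expo_apply, SetLike.mem_coe] at h1
    have h2 : p ∈ J → p ∈ J' := fun hp => h hp
    have h3 : p ∈ I → p ∈ I' := fun hp => h' hp
    by_cases a1 : p ∈ I <;> by_cases a2 : p ∈ I' <;> by_cases a3 : p ∈ J <;>
      by_cases a4 : p ∈ J' <;> simp_all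
  exact ⟨SetLike.ext fun p => (key p).1, SetLike.ext fun p => (key p).2⟩

/-- **Q1 is true.** Let `P` be a finite disjoint union of chains and let `K[Ω]` be a compatible
algebra with straightening laws on the lattice of the ideals of `P`. Then the straightening
relations of `K[Ω]` are `φ(I) φ(I') = φ(I ∩ I') φ(I ∪ I')`, and they coincide with those of the
toric ring `K[O(P)]` of the order polytope. -/
theorem result (K : Type*) [Field K] (P : Type*) [PartialOrder P] [Fintype P]
    (hP : IsUnionOfChains P) (σ : Type*) (w : LowerSet P → σ →₀ ℕ) (hw : IsCompatible K w) :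
    (∀ I I' : LowerSet P, phi K w I * phi K w I' = phi K w (I ⊓ I') * phi K w (I ⊔ I')) ∧
      SameRelations K w wOrder := by
  classical
  have : Finite (LowerSet P) := Finite.of_injective (fun I : LowerSet P => (I : Set P))
    SetLike.coe_injective
  have hg := good_of_compatible hw
  have h1 : ∀ I I' : LowerSet P, w I + w I' = w (I ⊓ I') + w (I ⊔ I') := by
    intro I I'
    obtain ⟨s, s', hs, h, h'⟩ := exists_split hP I I'
    exact claim_three hs hg h h'
  refine ⟨fun I I' => (phi_mul_eq_iff w _ _ _ _).2 (h1 I I'), ?_⟩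
  intro I I' _ _ J J' hJ hJ'
  have hJJ : J ≤ J' := hJ.trans (inf_le_left.trans (le_sup_left.trans hJ'))
  have hle : I ⊓ I' ≤ I ⊔ I' := inf_le_left.trans le_sup_left
  rw [phi_mul_eq_iff, phi_mul_eq_iff, h1, wOrder_add]
  constructor
  · intro he
    obtain ⟨e1, e2⟩ := hg.two _ _ _ _ hle hJJ he
    rw [e1, e2]
  · intro he
    obtain ⟨e1, e2⟩ := wOrder_unique hJJ hle he
    rw [e1, e2]

end Pool.Agent.Results.MP_9c3df6_al.UnionOfChains
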